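import Mathlib

/-!
# MK36/Defs : Hilbert symbols of integers
-/

set_option autoImplicit false

namespace Pool.Agent.MK36

/-- the exponent of `p` in `a` -/
def vv (p : ℕ) (a : ℤ) : ℕ := padicValInt p a

/-- the part of `a` prime to `p` -/
def uu (p : ℕ) (a : ℤ) : ℤ := a / (p : ℤ) ^ vv p a

/-- the Hilbert symbol at an odd prime `p` of nonzero integers -/
def hs (p : ℕ) (a b : ℤ) : ℤ :=
  jacobiSym (-1) p ^ (vv p a * vv p b) * jacobiSym (uu p a) p ^ vv p b *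
    jacobiSym (uu p b) p ^ vv p a

/-- `(-1)^(ε(u) ε(v))` for odd `u`, `v` -/
def sg (u v : ℤ) : ℤ := if u % 4 = 3 ∧ v % 4 = 3 then -1 else 1

/-- `(2/u)` for odd `u` -/
def w8 (u : ℤ) : ℤ := if u % 8 = 3 ∨ u % 8 = 5 then -1 else 1

/-- the Hilbert symbol at `2` of nonzero integers -/
def h2 (a b : ℤ) : ℤ := sg (uu 2 a) (uu 2 b) * w8 (uu 2 b) ^ vv 2 a * w8 (uu 2 a) ^ vv 2 b

/-- the Hilbert symbol at infinity of nonzero integers -/
def hi (a b : ℤ) : ℤ := if a < 0 ∧ b < 0 then -1 else 1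

end Pool.Agent.MK36
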