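import Pool.Agent.MK36.Defs

/-!
# MK36/Hilb : the calculus of Hilbert symbols at odd primes
-/

set_option autoImplicit false
set_option linter.unusedSectionVars false
set_option linter.style.haveILetI false
set_option linter.unusedVariables false

namespace Pool.Agent.MK36

variable {p : ℕ} (hp : p.Prime)

include hp

theorem uu_spec {a : ℤ} (ha : a ≠ 0) : a = (p : ℤ) ^ vv p a * uu p a := by
  have h : (p : ℤ) ^ vv p a ∣ a := padicValInt_dvd a
  unfold uu
  rw [Int.mul_ediv_cancel' h]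

theorem not_dvd_uu {a : ℤ} (ha : a ≠ 0) : ¬ (p : ℤ) ∣ uu p a := by
  haveI := Fact.mk hp
  intro h
  have h1 := uu_spec hp ha
  obtain ⟨c, hc⟩ := h
  have h2 : (p : ℤ) ^ (vv p a + 1) ∣ a := by
    rw [h1, hc, pow_succ]
    refine ⟨c, ?_⟩
    have : vv p ((p : ℤ) ^ vv p a * ((p : ℤ) * c)) = vv p a := by rw [← hc, ← h1]
    rw [this]; ring
  have h3 := (padicValInt_dvd_iff (p := p) (vv p a + 1) a).1 h2
  rcases h3 with h3 | h3
  · exact ha h3
  · unfold vv at h3; omega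

theorem vv_eq_zero {a : ℤ} (h : ¬ (p : ℤ) ∣ a) : vv p a = 0 := by
  by_contra h0
  apply h
  have h1 : (p : ℤ) ^ vv p a ∣ a := padicValInt_dvd a
  exact dvd_trans (dvd_pow_self _ h0) h1

theorem uu_eq_self {a : ℤ} (h : ¬ (p : ℤ) ∣ a) : uu p a = a := by
  unfold uu
  rw [vv_eq_zero hp h]; simp

/-- the exponent and the unit part are determined by the decomposition -/
theorem vv_uu_of_eq {a u : ℤ} {k : ℕ} (h : a = (p : ℤ) ^ k * u) (hu : ¬ (p : ℤ) ∣ u) :
    vv p a = k ∧ uu p a = u := by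
  haveI := Fact.mk hp
  have hp0 : (p : ℤ) ≠ 0 := by exact_mod_cast hp.ne_zero
  have hu0 : u ≠ 0 := by rintro rfl; exact hu (dvd_zero _)
  have ha : a ≠ 0 := by rw [h]; exact mul_ne_zero (pow_ne_zero _ hp0) hu0
  have h1 : vv p a = k := by
    apply le_antisymm
    · by_contra hlt
      push Not at hlt
      have h2 : (p : ℤ) ^ (k + 1) ∣ a :=
        dvd_trans (pow_dvd_pow _ hlt) (padicValInt_dvd a)
      rw [h, pow_succ] at h2
      exact hu ((mul_dvd_mul_iff_left (pow_ne_zero _ hp0)).1 h2)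
    · have h2 : (p : ℤ) ^ k ∣ a := ⟨u, h⟩
      rcases (padicValInt_dvd_iff (p := p) k a).1 h2 with h3 | h3
      · exact absurd h3 ha
      · exact h3
  refine ⟨h1, ?_⟩
  have h2 := uu_spec hp ha
  rw [h1] at h2
  exact mul_left_cancel₀ (pow_ne_zero k hp0) (h2.symm.trans h)

theorem vv_mul {a b : ℤ} (ha : a ≠ 0) (hb : b ≠ 0) : vv p (a * b) = vv p a + vv p b := by
  haveI := Fact.mk hp
  exact padicValInt.mul ha hb

theorem uu_mul {a b : ℤ} (ha : a ≠ 0) (hb : b ≠ 0) : uu p (a * b) = uu p a * uu p b := by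
  have h : a * b = (p : ℤ) ^ (vv p a + vv p b) * (uu p a * uu p b) := by
    conv_lhs => rw [uu_spec hp ha, uu_spec hp hb]
    rw [pow_add]; ring
  refine (vv_uu_of_eq hp h ?_).2
  intro h1
  rcases (Nat.prime_iff_prime_int.1 hp).dvd_or_dvd h1 with h2 | h2
  · exact not_dvd_uu hp ha h2
  · exact not_dvd_uu hp hb h2

omit hp in
theorem hs_comm (a b : ℤ) : hs p a b = hs p b a := by
  unfold hs
  rw [mul_comm (vv p a) (vv p b)]; ring

theorem hs_mul_left {a a' b : ℤ} (ha : a ≠ 0) (ha' : a' ≠ 0) (hb : b ≠ 0) :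
    hs p (a * a') b = hs p a b * hs p a' b := by
  unfold hs
  rw [vv_mul hp ha ha', uu_mul hp ha ha', jacobiSym.mul_left]
  ring

theorem hs_mul_right {a b b' : ℤ} (ha : a ≠ 0) (hb : b ≠ 0) (hb' : b' ≠ 0) :
    hs p a (b * b') = hs p a b * hs p a b' := by
  rw [hs_comm a, hs_mul_left hp hb hb' ha, hs_comm b, hs_comm b']

theorem gcd_one {a : ℤ} (h : ¬ (p : ℤ) ∣ a) : a.gcd p = 1 := by
  rw [← Int.isCoprime_iff_gcd_eq_one]
  exact ((Nat.prime_iff_prime_int.1 hp).coprime_iff_not_dvd.2 h).symm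

theorem jac_unit {a : ℤ} (h : ¬ (p : ℤ) ∣ a) : jacobiSym a p = 1 ∨ jacobiSym a p = -1 :=
  jacobiSym.eq_one_or_neg_one (gcd_one hp h)

theorem jac_mul_self {a : ℤ} (h : ¬ (p : ℤ) ∣ a) : jacobiSym a p * jacobiSym a p = 1 := by
  rcases jac_unit hp h with h | h <;> rw [h] <;> norm_num

theorem jac_sq {a : ℤ} (h : ¬ (p : ℤ) ∣ a) : jacobiSym (a ^ 2) p = 1 :=
  jacobiSym.sq_one' (gcd_one hp h)

/-- the Legendre symbol depends on the class modulo `p` -/
theorem jac_congr {a b : ℤ} (h : (p : ℤ) ∣ a - b) : jacobiSym a p = jacobiSym b p := by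
  apply jacobiSym.mod_left'
  exact Int.emod_eq_emod_iff_emod_sub_eq_zero.2 (Int.emod_eq_zero_of_dvd h)

/-- if `a c² = b` modulo `p`, units -/
theorem jac_of_sq {a b c : ℤ} (h : (p : ℤ) ∣ a * c ^ 2 - b) (hc : ¬ (p : ℤ) ∣ c) :
    jacobiSym a p = jacobiSym b p := by
  rw [← jac_congr hp h, jacobiSym.mul_left, jac_sq hp hc, mul_one]

theorem not_dvd_neg_one : ¬ (p : ℤ) ∣ -1 := by
  intro h
  have := Int.eq_one_of_dvd_one (by positivity) ((dvd_neg).1 h)
  exact hp.one_lt.ne' (by exact_mod_cast this)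

theorem pm_pow {x : ℤ} (hx : x = 1 ∨ x = -1) (k : ℕ) : x ^ k = 1 ∨ x ^ k = -1 := by
  rcases hx with rfl | rfl
  · left; simp
  · exact neg_one_pow_eq_or ℤ k

theorem pm_mul {x y : ℤ} (hx : x = 1 ∨ x = -1) (hy : y = 1 ∨ y = -1) :
    x * y = 1 ∨ x * y = -1 := by
  rcases hx with rfl | rfl <;> rcases hy with rfl | rfl <;> norm_num

/-- values are `±1` -/
theorem hs_sq {a b : ℤ} (ha : a ≠ 0) (hb : b ≠ 0) : hs p a b = 1 ∨ hs p a b = -1 := by
  unfold hs
  refine pm_mul hp (pm_mul hp (pm_pow hp (jac_unit hp (not_dvd_neg_one hp)) _)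
    (pm_pow hp (jac_unit hp (not_dvd_uu hp ha)) _)) (pm_pow hp (jac_unit hp (not_dvd_uu hp hb)) _)

theorem hs_mul_self {a b : ℤ} (ha : a ≠ 0) (hb : b ≠ 0) : hs p a b * hs p a b = 1 := by
  rcases hs_sq hp ha hb with h | h <;> rw [h] <;> norm_num

/-- two units -/
theorem hs_unit_unit {a b : ℤ} (ha : ¬ (p : ℤ) ∣ a) (hb : ¬ (p : ℤ) ∣ b) : hs p a b = 1 := by
  unfold hs
  rw [vv_eq_zero hp ha, vv_eq_zero hp hb]; simp

/-- a unit and any number -/
theorem hs_unit {a b : ℤ} (ha : ¬ (p : ℤ) ∣ a) : hs p a b = jacobiSym a p ^ vv p b := by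
  unfold hs
  rw [vv_eq_zero hp ha, uu_eq_self hp ha]; simp

theorem hs_unit' {a b : ℤ} (hb : ¬ (p : ℤ) ∣ b) : hs p a b = jacobiSym b p ^ vv p a := by
  rw [hs_comm, hs_unit hp hb]

/-- a unit which is a square modulo `p` -/
theorem hs_unit_one {a b : ℤ} (ha : ¬ (p : ℤ) ∣ a) (h : jacobiSym a p = 1) : hs p a b = 1 := by
  rw [hs_unit hp ha, h, one_pow]

/-- square factors do not matter -/
theorem hs_sq_mul_left {a b c : ℤ} (ha : a ≠ 0) (hb : b ≠ 0) (hc : c ≠ 0) :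
    hs p (c ^ 2 * a) b = hs p a b := by
  rw [sq, mul_assoc, hs_mul_left hp hc (mul_ne_zero hc ha) hb, hs_mul_left hp hc ha hb,
    ← mul_assoc, hs_mul_self hp hc hb, one_mul]

theorem hs_sq_mul_right {a b c : ℤ} (ha : a ≠ 0) (hb : b ≠ 0) (hc : c ≠ 0) :
    hs p a (c ^ 2 * b) = hs p a b := by
  rw [hs_comm, hs_sq_mul_left hp hb ha hc, hs_comm]

omit hp in
theorem pow_two_mul {x : ℤ} (hx : x * x = 1) (m : ℕ) : x ^ (2 * m) = 1 := by
  rw [pow_mul, sq, hx, one_pow]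

omit hp in
/-- powers of `±1` depend on the parity -/
theorem pow_parity {x : ℤ} (hx : x * x = 1) {m n : ℕ} (h : m % 2 = n % 2) : x ^ m = x ^ n := by
  have : ∀ m : ℕ, x ^ m = x ^ (m % 2) := by
    intro m
    conv_lhs => rw [← Nat.div_add_mod m 2, pow_add, pow_two_mul hx, one_mul]
  rw [this m, this n, h]

theorem steinberg_aux {a b c : ℤ} (ha : a ≠ 0) (hb : b ≠ 0) (hc : c ≠ 0)
    (h : a + b = c ^ 2) (hlt : vv p a < vv p b) : hs p a b = 1 := by
  have hp0 : (p : ℤ) ≠ 0 := by exact_mod_cast hp.ne_zero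
  have hP := Nat.prime_iff_prime_int.1 hp
  have ea := uu_spec hp ha
  have eb := uu_spec hp hb
  have ec := uu_spec hp hc
  have na := not_dvd_uu hp ha
  have nc := not_dvd_uu hp hc
  obtain ⟨k, hk⟩ := Nat.exists_eq_add_of_lt hlt
  -- `c² = p^(v a) (u + p^(k+1) w)`
  have e1 : c ^ 2 = (p : ℤ) ^ vv p a * (uu p a + (p : ℤ) ^ (k + 1) * uu p b) := by
    rw [← h]
    conv_lhs => rw [ea, eb, hk]
    rw [show vv p a + k + 1 = vv p a + (k + 1) by ring, pow_add]; ring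
  have e2 : c ^ 2 = (p : ℤ) ^ (2 * vv p c) * (uu p c) ^ 2 := by
    conv_lhs => rw [ec]
    ring
  have n1 : ¬ (p : ℤ) ∣ uu p a + (p : ℤ) ^ (k + 1) * uu p b := by
    intro hd
    apply na
    have : (p : ℤ) ∣ (p : ℤ) ^ (k + 1) * uu p b :=
      Dvd.dvd.mul_right (dvd_pow_self _ (Nat.succ_ne_zero k)) _
    exact (dvd_add_left this).1 hd
  have n2 : ¬ (p : ℤ) ∣ (uu p c) ^ 2 := fun hd => nc (hP.dvd_of_dvd_pow hd)
  have f1 := vv_uu_of_eq hp e1 n1
  have f2 := vv_uu_of_eq hp e2 n2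
  have hev : vv p a = 2 * vv p c := f1.1.symm.trans f2.1
  have hu : uu p a + (p : ℤ) ^ (k + 1) * uu p b = (uu p c) ^ 2 := f1.2.symm.trans f2.2
  have hj : jacobiSym (uu p a) p = 1 := by
    rw [← jac_sq hp nc]
    apply jac_congr hp
    refine ⟨-(p : ℤ) ^ k * uu p b, ?_⟩
    rw [← hu]; ring
  have j1 := jac_mul_self hp (not_dvd_neg_one hp)
  have j2 := jac_mul_self hp (not_dvd_uu hp hb)
  unfold hs
  rw [hj, hev]
  simp only [one_pow, mul_one]
  rw [mul_assoc (2 : ℕ), pow_two_mul j1, pow_two_mul j2, one_mul]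

/-- Steinberg relation -/
theorem steinberg {a b c : ℤ} (ha : a ≠ 0) (hb : b ≠ 0) (hc : c ≠ 0) (h : a + b = c ^ 2) :
    hs p a b = 1 := by
  rcases lt_trichotomy (vv p a) (vv p b) with hlt | heq | hgt
  · exact steinberg_aux hp ha hb hc h hlt
  · have hp0 : (p : ℤ) ≠ 0 := by exact_mod_cast hp.ne_zero
    have hP := Nat.prime_iff_prime_int.1 hp
    have ea := uu_spec hp ha
    have eb := uu_spec hp hb
    have ec := uu_spec hp hc
    have j1 := jac_mul_self hp (not_dvd_neg_one hp)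
    have ja := jac_mul_self hp (not_dvd_uu hp ha)
    have jb := jac_mul_self hp (not_dvd_uu hp hb)
    have e1 : c ^ 2 = (p : ℤ) ^ vv p a * (uu p a + uu p b) := by
      rw [← h]
      conv_lhs => rw [ea, eb, ← heq]
      ring
    have e2 : c ^ 2 = (p : ℤ) ^ (2 * vv p c) * (uu p c) ^ 2 := by
      conv_lhs => rw [ec]
      ring
    by_cases hd : (p : ℤ) ∣ uu p a + uu p b
    · have hj : jacobiSym (uu p a) p = jacobiSym (-1) p * jacobiSym (uu p b) p := by
        rw [← jacobiSym.mul_left]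
        apply jac_congr hp
        obtain ⟨c, hc⟩ := hd
        exact ⟨c, by rw [← hc]; ring⟩
      unfold hs
      rw [hj, ← heq]
      have hpar : (vv p a * vv p a) % 2 = vv p a % 2 := by
        rcases Nat.mod_two_eq_zero_or_one (vv p a) with h0 | h0 <;> simp [Nat.mul_mod, h0]
      rw [pow_parity j1 hpar, ← mul_pow, ← mul_pow]
      have : jacobiSym (-1) p * (jacobiSym (-1) p * jacobiSym (uu p b) p) * jacobiSym (uu p b) p
          = 1 := by
        calc _ = (jacobiSym (-1) p * jacobiSym (-1) p) *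
              (jacobiSym (uu p b) p * jacobiSym (uu p b) p) := by ring
          _ = 1 := by rw [j1, jb]; norm_num
      rw [this, one_pow]
    · have f1 := vv_uu_of_eq hp e1 hd
      have n2 : ¬ (p : ℤ) ∣ (uu p c) ^ 2 := fun hd => not_dvd_uu hp hc (hP.dvd_of_dvd_pow hd)
      have f2 := vv_uu_of_eq hp e2 n2
      have hev : vv p a = 2 * vv p c := f1.1.symm.trans f2.1
      unfold hs
      rw [← heq, hev]
      rw [mul_assoc (2 : ℕ), pow_two_mul j1, pow_two_mul ja, pow_two_mul jb]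
      simp
  · rw [hs_comm]
    exact steinberg_aux hp hb ha hc (by rw [add_comm]; exact h) hgt

/-- Steinberg relation -/
theorem hs_steinberg {a b x y z : ℤ} (ha : a ≠ 0) (hb : b ≠ 0)
    (h : a * x ^ 2 + b * y ^ 2 = z ^ 2) (hx : x ≠ 0) (hy : y ≠ 0) (hz : z ≠ 0) :
    hs p a b = 1 := by
  rw [← hs_sq_mul_left hp ha hb hx, ← hs_sq_mul_right hp (mul_ne_zero (pow_ne_zero 2 hx) ha) hb hy]
  refine steinberg hp (mul_ne_zero (pow_ne_zero 2 hx) ha) (mul_ne_zero (pow_ne_zero 2 hy) hb) hz ?_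
  rw [← h]; ring

end Pool.Agent.MK36
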