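import Pool.Agent.MK36.Hilb

/-!
# MK36/Prod : the product formula
-/

set_option autoImplicit false

namespace Pool.Agent.MK36

/-- the product formula for Hilbert symbols of nonzero integers -/
theorem product_formula {a b : ℤ} (ha : a ≠ 0) (hb : b ≠ 0) (S : Finset ℕ)
    (hS : ∀ p ∈ S, p.Prime ∧ p ≠ 2)
    (hab : ∀ p : ℕ, p.Prime → p ≠ 2 → (p : ℤ) ∣ a * b → p ∈ S) :
    ∏ p ∈ S, hs p a b = h2 a b * hi a b := by
  sorry

end Pool.Agent.MK36
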