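import Pool.Agent.MK36.Hilb

/-!
# MK36/R1 : the first part of the element, at odd primes
-/

set_option autoImplicit false

namespace Pool.Agent.MK36

/-- `(-n, GA)(n, 2)(A, f)(-zG, -f)` at `p` -/
def R1 (p : ℕ) (n G A z f : ℤ) : ℤ :=
  hs p (-n) (G * A) * hs p n 2 * hs p A f * hs p (-z * G) (-f)

/-- Data: `s = g t`, `ν = 2 (s² + 1)`, `n = g x - 2`, `A = x + 2 g t²`, `B = x - 2 g t²`, `G = y - z`,
`f = x² + 4 t² (s² + 2)`, and `x² + y² + z² - g x y z = - 4 t² (s² + 2)`. -/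
structure Dat (p : ℕ) (g t x y z s ν n A B G f : ℤ) : Prop where
  prime : p.Prime
  odd : p ≠ 2
  pt : ¬ (p : ℤ) ∣ t
  hs : s = g * t
  hν : ν = 2 * (s ^ 2 + 1)
  hn : n = g * x - 2
  hA : A = x + 2 * g * t ^ 2
  hB : B = x - 2 * g * t ^ 2
  hG : G = y - z
  hf : f = x ^ 2 + 4 * t ^ 2 * (s ^ 2 + 2)
  eq : x ^ 2 + y ^ 2 + z ^ 2 - g * x * y * z = -4 * t ^ 2 * (s ^ 2 + 2)
  n0 : n ≠ 0
  A0 : A ≠ 0
  G0 : G ≠ 0
  y0 : y ≠ 0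
  z0 : z ≠ 0
  f0 : f ≠ 0
  /-- primes `p = 3` modulo `4` -/
  p3 : p % 4 = 3 → ¬ (p : ℤ) ∣ n ∧ ¬ (p : ℤ) ∣ n + 4 ∧ ¬ (p : ℤ) ∣ ν ∧
    ¬ (p : ℤ) ∣ g ^ 2 * z ^ 2 - 4

namespace Dat

variable {p : ℕ} {g t x y z s ν n A B G f : ℤ} (d : Dat p g t x y z s ν n A B G f)

include d

theorem f_eq : f = A ^ 2 - 4 * t ^ 2 * n := by
  rw [d.hf, d.hA, d.hn, d.hs]; ring

theorem f_eq' : f = B ^ 2 + 4 * t ^ 2 * (n + 4) := by
  rw [d.hf, d.hB, d.hn, d.hs]; ring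

theorem f_eq'' : f = n * y * z - G ^ 2 := by
  have := d.eq
  rw [d.hf, d.hn, d.hG]; linarith

theorem gA : g * A = n + ν := by
  rw [d.hA, d.hn, d.hν, d.hs]; ring

theorem ggf : g ^ 2 * f = n ^ 2 + 4 * n + ν ^ 2 := by
  rw [d.hf, d.hn, d.hν, d.hs]; ring

theorem norm_eq : (2 * y - g * x * z) ^ 2 + ν ^ 2 * z ^ 2 = f * (g ^ 2 * z ^ 2 - 4) := by
  have h := d.eq
  rw [d.hf, d.hν, d.hs] at *
  linear_combination 4 * h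

/-- `p` does not divide `f` -/
theorem R1_one (h : ¬ (p : ℤ) ∣ f) : R1 p n G A z f = 1 := by
  sorry

/-- `p = 3` modulo `4` -/
theorem R1_three (h4 : p % 4 = 3) (h : (p : ℤ) ∣ f) :
    Even (vv p f) ∧ R1 p n G A z f = (-1) ^ (vv p f / 2) := by
  sorry

/-- `p = 1` modulo `4`, `p` does not divide `n` -/
theorem R1_four (h4 : p % 4 = 1) (h : (p : ℤ) ∣ f) (hn : ¬ (p : ℤ) ∣ n) (i : ℤ)
    (hi : (p : ℤ) ∣ i ^ 2 + 1) :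
    R1 p n G A z f = jacobiSym (B + i * A) p ^ vv p f := by
  sorry

/-- `p = 1` modulo `4`, `p` divides `n` -/
theorem R1_deg (h4 : p % 4 = 1) (h : (p : ℤ) ∣ f) (hn : (p : ℤ) ∣ n) (i : ℤ)
    (hi : (p : ℤ) ∣ i ^ 2 + 1) :
    R1 p n G A z f = jacobiSym (B + i * A) p ^ vv p f := by
  sorry

end Dat

end Pool.Agent.MK36
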