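import Pool.Agent.MK36.Hilb

/-!
# MK36/R2 : the second part of the element, at odd primes
-/

set_option autoImplicit false

namespace Pool.Agent.MK36

/-- `(hD, 2f)(M, -Ah)(2U, M)` at `p` -/
def R2 (p : ℕ) (h D f M A U : ℤ) : ℤ :=
  hs p (h * D) (2 * f) * hs p M (-A * h) * hs p (2 * U) M

/-- Data: `D² + E² = 2 f`, `M = A² + B² = 2 f - 16 t²`, `h = D B - A E`, `U = E + 4 t`. -/
structure Dat2 (p : ℕ) (t A B D E f h M U : ℤ) : Prop where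
  prime : p.Prime
  odd : p ≠ 2
  pt : ¬ (p : ℤ) ∣ t
  hf : D ^ 2 + E ^ 2 = 2 * f
  hM : M = A ^ 2 + B ^ 2
  hM' : M = 2 * f - 16 * t ^ 2
  hh : h = D * B - A * E
  hU : U = E + 4 * t
  h0 : h ≠ 0
  A0 : A ≠ 0
  D0 : D ≠ 0
  U0 : U ≠ 0
  V0 : E - 4 * t ≠ 0
  f0 : f ≠ 0
  M0 : M ≠ 0

namespace Dat2

variable {p : ℕ} {t A B D E f h M U : ℤ} (d : Dat2 p t A B D E f h M U)

include d

/-- `p` does not divide `f M` -/
theorem R2_one (hf : ¬ (p : ℤ) ∣ f) (hM : ¬ (p : ℤ) ∣ M) : R2 p h D f M A U = 1 := by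
  sorry

/-- `p` divides `M` -/
theorem R2_M (hM : (p : ℤ) ∣ M) : R2 p h D f M A U = 1 := by
  sorry

/-- `p = 3` modulo `4` -/
theorem R2_three (h4 : p % 4 = 3) (hf : (p : ℤ) ∣ f) :
    R2 p h D f M A U = (-1) ^ (vv p f / 2) := by
  sorry

/-- `p = 1` modulo `4` -/
theorem R2_four (h4 : p % 4 = 1) (hf : (p : ℤ) ∣ f) (i : ℤ) (hi : (p : ℤ) ∣ i ^ 2 + 1) :
    R2 p h D f M A U = jacobiSym (B + i * A) p ^ vv p f := by
  sorry

end Dat2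

end Pool.Agent.MK36
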